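import Pool.Agent.H15.FOS.Asm2
import Pool.Agent.H13.FOS.HRL
import Pool.Agent.H37.FOS.MPR
import Pool.Agent.H85.FOS.HRP
import Pool.Agent.H33.FOS.PLQ
import Pool.Agent.H33.FOS.RMF
import Pool.Agent.H91.FOS.DPL
import Pool.Agent.H91.FOS.IMG
import Pool.Agent.H70.FOS.DPN
import Pool.Agent.H64.FOS.LCB
import Pool.Agent.H54.FOS.GNM
import Pool.Agent.H39.FOS.PLO
import Pool.Agent.H94.FOS.SUX

/-!
# MP_70ba79_ag, THEOREM S (surfaces), chapter 12: all rows of the board `fos_modules`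
-/

set_option autoImplicit false

namespace Pool.Agent.H15.FOS

theorem a_HRL : T_HRL := Pool.Agent.H13.FOS.fos_HRL

theorem a_HRP : T_HRP := Pool.Agent.H85.FOS.fos_HRP a_HRL

theorem a_MPR : T_MPR := Pool.Agent.H37.FOS.fos_MPR a_HRL

theorem a_PLQ : T_PLQ := Pool.Agent.H33.FOS.fos_PLQ a_HRP

theorem a_DPL : T_DPL := Pool.Agent.H91.FOS.fos_DPL

theorem a_IMG : T_IMG := Pool.Agent.H91.FOS.fos_IMG

theorem a_DPN : T_DPN := Pool.Agent.H70.FOS.fos_DPN a_DPL a_IMG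

theorem a_RMF : T_RMF := Pool.Agent.H33.FOS.fos_RMF

theorem a_LCB : T_LCB := Pool.Agent.H64.FOS.fos_LCB a_RMF

theorem a_GNM : T_GNM := Pool.Agent.H54.FOS.fos_GNM

theorem a_PLO : T_PLO := Pool.Agent.H39.FOS.fos_PLO

theorem a_SUX : T_SUX := Pool.Agent.H94.FOS.fos_SUX

theorem a_FOL : T_FOL := asm_FOL a_MPR a_PLQ a_DPN a_LCB a_GNM a_PLO

theorem a_FO : T_FO := asm_FO a_FOL a_SUX

/-- chapter 12: the degree of the solutions of a first order equation is bounded -/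
theorem a_FOS : Pool.Agent.H3.SF.T_FOS := asm_FOS a_FO

end Pool.Agent.H15.FOS
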