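import Pool.Agent.H15.FOS.Targets

/-!
# MP_70ba79_ag, THEOREM S (surfaces), chapter 12: first order equations; assembly
-/

set_option autoImplicit false

namespace Pool.Agent.H15.FOS

open MvPolynomial SC Pool.Agent.H27.LV
open Pool.Agent.H84.SM (dp cr dt)
open Pool.Agent.H92.SF Pool.Agent.H3.SF

theorem eu_u {k F : Type} [Field k] [Field F] [Algebra k F] (u : Fin 3 → F)
    (dd : Fin 3 → Derivation k F F) (h : ∀ l j, dd l (u j) = if l = j then 1 else 0) (j : Fin 3) :
    eu u dd (u j) = u j := by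
  unfold eu
  have h1 : (∑ l, u l • dd l : Derivation k F F) (u j) = ∑ l, u l * dd l (u j) := by
    rw [← Derivation.coeFnAddMonoidHom_apply, map_sum, Finset.sum_apply]
    rfl
  rw [h1]
  simp [h]

theorem vl_zero {k F K : Type} [Field k] [Field F] [Algebra k F] [Field K] [Algebra k K]
    (u : Fin 3 → F) (φ : Bb k u →ₐ[k] K) (b : K) (h : Vl u φ 0 b) : b = 0 := by
  obtain ⟨h, c, h1, h2, h3⟩ := h
  rw [mul_zero] at h2
  have hc : c = 0 := Subtype.ext h2.symm
  rw [hc, map_zero] at h3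
  exact (mul_eq_zero.1 h3).resolve_left h1

/-- the value of the polynomial `q (u)` at the curve -/
theorem phi_aeval {k F K : Type} [Field k] [Field F] [Algebra k F] [Field K] [Algebra k K]
    (u : Fin 3 → F) (φ : Bb k u →ₐ[k] K) (x : Fin 3 → K)
    (hx : ∀ (i : Fin 3) (b : Bb k u), (b : F) = u i → φ b = x i) (ul : Fin 3 → Bb k u)
    (hul : ∀ i, (ul i : F) = u i) (q : MvPolynomial (Fin 3) k) :
    ((aeval ul q : Bb k u) : F) = aeval u q ∧ φ (aeval ul q) = aeval x q := by
  constructor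
  · have h1 : (fun i => (Bb k u).val (ul i)) = u := funext hul
    have h2 := MvPolynomial.comp_aeval_apply ul (Bb k u).val q
    rw [h1] at h2
    exact h2
  · have h1 : (fun i => φ (ul i)) = x := funext fun i => hx i _ (hul i)
    have h2 := MvPolynomial.comp_aeval_apply ul φ q
    rw [h1] at h2
    exact h2

theorem asm_FOL (hMPR : T_MPR) (hPLQ : T_PLQ) (hDPN : T_DPN) (hLCB : T_LCB) (hGNM : T_GNM)
    (hPLO : T_PLO) : T_FOL := by
  intro k F _ _ _ _ _ u dd δ j0 c0 m J G c hS hG hc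
  have hEu : ∀ i, eu u dd (u i) = u i := eu_u u dd hS.du
  obtain ⟨n, τ, hWH, hTw⟩ := hc.tw
  have hcC : c = Polynomial.C (c.coeff 0) := Polynomial.eq_C_of_natDegree_eq_zero hc.dg
  have hc0 : c.coeff 0 ≠ 0 := by
    intro h
    apply hc.ne
    rw [hcC, h, map_zero]
  have hhom : (c.coeff 0).IsHomogeneous n := by
    have := (hWH 0).1 (by omega)
    simpa using this
  have hHm : ∀ a, Hm k (eu u dd) (τ - 2 * n) ((c.coeff 0).coeff a) := by
    intro a
    have := hTw 0 a
    simpa using this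
  have hpos : 0 ≤ τ - 2 * n := by
    by_contra hlt
    push Not at hlt
    apply hc0
    ext a
    have h1 : (c.coeff 0).coeff a ∈ BB k u (eu u dd) (τ - 2 * n) := ⟨hc.itg 0 a, hHm a⟩
    rw [hS.neg _ hlt] at h1
    rw [coeff_zero]
    exact (Submodule.mem_bot k).1 h1
  obtain ⟨e, he⟩ : ∃ e : ℕ, (e : ℤ) = τ - 2 * n := ⟨(τ - 2 * n).toNat, Int.toNat_of_nonneg hpos⟩
  rw [← he] at hHm
  obtain ⟨Q1, hQ1, hQ⟩ := hPLQ k F u (eu u dd) (c.coeff 0) n e hEu hc0 hhom (hc.itg 0) hHm
  obtain ⟨N, q, hq⟩ := hMPR k F u (eu u dd) G m hEu hG.ne hG.itg hG.hom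
  have hA0 : (q 0).IsHomogeneous (N * m) := by
    have := hq.hom 0 hq.pos
    simpa using this
  obtain ⟨C1, hC1⟩ := hLCB k (N * m) (q 0) Q1 hQ1
  refine ⟨1 + N * m + C1 * δ, ?_⟩
  intro K _ _ _ htr D hD φ x g S hf hprm hW
  by_cases hx0 : x 0 = 0
  · left
    refine ⟨1, X 0, by omega, X_ne_zero _, isHomogeneous_X _ _, ?_⟩
    rw [aeval_X, hx0]
  by_cases hA : aeval x (q 0) = 0
  · left
    exact ⟨N * m, q 0, by omega, hq.ne, hA0, hA⟩
  right
  intro v
  -- the equation of `g`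
  have hmem : ∀ i, Itg k u (u i) := fun i => by
    have h := ((aeval u : MvPolynomial (Fin 3) k →ₐ[k] F) :
      MvPolynomial (Fin 3) k →+* F).isIntegralElem_map (x := X i)
    simpa [Itg] using h
  obtain ⟨ul, hul⟩ : ∃ ul : Fin 3 → Bb k u, ∀ i, (ul i : F) = u i := ⟨fun i => ⟨u i, hmem i⟩,
    fun i => rfl⟩
  obtain ⟨GB, hGB⟩ : ∃ GB : Bb k u, (GB : F) = G := ⟨⟨G, hG.itg⟩, rfl⟩
  have hg : φ GB = g := hf.gx GB hGB
  have hrel : GB ^ N + ∑ i ∈ Finset.range N, aeval ul (q i) * GB ^ i = 0 := by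
    apply Subtype.ext
    have h1 : ((GB ^ N + ∑ i ∈ Finset.range N, aeval ul (q i) * GB ^ i : Bb k u) : F) =
        G ^ N + ∑ i ∈ Finset.range N, eval₂Hom (algebraMap k F) u (q i) * G ^ i := by
      rw [AddMemClass.coe_add, AddSubmonoidClass.coe_finsetSum, SubmonoidClass.coe_pow, hGB]
      congr 1
      refine Finset.sum_congr rfl fun i _ => ?_
      rw [MulMemClass.coe_mul, SubmonoidClass.coe_pow, hGB, (phi_aeval u φ x hf.cx ul hul (q i)).1]
      rfl
    rw [h1, hq.eq]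
    rfl
  have hHEq : HEq (algebraMap k K) x g m N q := by
    refine ⟨hq.pos, hq.hom, hq.ne, ?_⟩
    have h1 := congrArg φ hrel
    rw [map_zero, map_add, map_sum, map_pow, hg] at h1
    rw [← h1]
    congr 1
    refine Finset.sum_congr rfl fun i _ => ?_
    rw [map_mul, map_pow, hg, (phi_aeval u φ x hf.cx ul hul (q i)).2]
    rfl
  have h1 := hGNM k K v x g m N q hHEq hA
  obtain ⟨h2, h3⟩ := hPLO k K v x (N * m) (q 0) hf.one hx0 hA0 hA
  rw [h3] at h1
  -- the degree over the plane curve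
  have hdep := hDPN k F K u δ hS.ind hS.rank hS.pos φ x hf.cx hprm
  have hle : IntermediateField.adjoin k (Set.range x) ≤
      IntermediateField.adjoin k {x 1 / x 0, x 2 / x 0} := by
    rw [IntermediateField.adjoin_le_iff]
    have m1 : x 1 / x 0 ∈ IntermediateField.adjoin k {x 1 / x 0, x 2 / x 0} :=
      IntermediateField.subset_adjoin _ _ (Or.inl rfl)
    have m2 : x 2 / x 0 ∈ IntermediateField.adjoin k {x 1 / x 0, x 2 / x 0} :=
      IntermediateField.subset_adjoin _ _ (Or.inr rfl)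
    have m0 : x 0 ∈ IntermediateField.adjoin k {x 1 / x 0, x 2 / x 0} := by
      obtain ⟨j, hj⟩ := hf.one
      fin_cases j
      · change x 0 = 1 at hj
        rw [hj]
        exact IntermediateField.one_mem _
      · change x 1 = 1 at hj
        have h0 : (x 1 / x 0)⁻¹ = x 0 := by rw [inv_div, hj, div_one]
        have h6 := IntermediateField.inv_mem _ m1
        rwa [h0] at h6
      · change x 2 = 1 at hj
        have h0 : (x 2 / x 0)⁻¹ = x 0 := by rw [inv_div, hj, div_one]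
        have h6 := IntermediateField.inv_mem _ m2
        rwa [h0] at h6
    rintro _ ⟨i, rfl⟩
    fin_cases i
    · exact m0
    · have := IntermediateField.mul_mem _ m1 m0
      rwa [div_mul_cancel₀ _ hx0] at this
    · have := IntermediateField.mul_mem _ m2 m0
      rwa [div_mul_cancel₀ _ hx0] at this
  have hdep' : Dep (IntermediateField.adjoin k {x 1 / x 0, x 2 / x 0}) δ := by
    intro t
    obtain ⟨a, ha1, ha2, ha3⟩ := hdep t
    exact ⟨a, fun i => hle (ha1 i), ha2, ha3⟩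
  -- the first order equation
  obtain ⟨W, hW1, hW2⟩ := hW
  have hWC : W = Polynomial.C (W.coeff 0) := by
    ext j a
    rw [Polynomial.coeff_C]
    split_ifs with hj
    · rw [hj]
    · have h5 := hW1 j a
      have h6 : c.coeff j = 0 := by
        rw [hcC, Polynomial.coeff_C, if_neg hj]
      rw [h6, coeff_zero] at h5
      rw [vl_zero u φ _ h5, coeff_zero]
  have hW3 : eval ![cr x (fun i => D (x i)) 1, cr x (fun i => D (x i)) 2] (W.coeff 0) = 0 := by
    rw [hWC] at hW2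
    unfold evc ev2 at hW2
    rw [Polynomial.coe_eval₂RingHom, Polynomial.eval₂_C] at hW2
    exact hW2
  have h4 := hC1 K htr δ (x 1 / x 0) (x 2 / x 0) D hdep' hD
    (fun hDX => hQ K D φ x (W.coeff 0) hf.cx hx0 (hW1 0) hW3 hDX) h2 v
  have h5 : ((C1 * δ : ℕ) : ℤ) ≤ ((1 + N * m + C1 * δ : ℕ) : ℤ) := by
    exact_mod_cast Nat.le_add_left _ _
  push_cast at h1 h4 h5 ⊢
  linarith

theorem asm_FO (hFOL : T_FOL) (hSUX : T_SUX) : T_FO := by
  intro k F _ _ _ _ _ u dd δ j0 c0 m J G c hS hG hc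
  obtain ⟨C, hC⟩ := hFOL k F u dd δ j0 c0 m J G c hS hG hc
  refine ⟨C, ?_⟩
  intro K _ _ _ htr D hD φ x g S hf hprm hW
  rcases hC K htr D hD φ x g S hf hprm hW with h | h
  · exact Or.inl h
  · exact Or.inr (hSUX k K htr m C g x hf.ne S hf.off fun v _ => h v)

end Pool.Agent.H15.FOS
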