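import Pool.Agent.H15.FOS.Asm
import Pool.Agent.H3.SF.Bnd

/-!
# MP_70ba79_ag, THEOREM S (surfaces), chapter 12: the form of `Pool.Agent.H3.SF.Bnd`
-/

set_option autoImplicit false

namespace Pool.Agent.H15.FOS

open MvPolynomial SC Pool.Agent.H27.LV
open Pool.Agent.H92.SF Pool.Agent.H3.SF

theorem asm_FOS (hFO : T_FO) : Pool.Agent.H3.SF.T_FOS := by
  intro k F _ _ _ _ _ u dd δ j0 c0 J hS m G hm hG c hc
  obtain ⟨C, hC⟩ := hFO k F u dd δ j0 c0 m J G c hS hG hc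
  refine ⟨C, ?_⟩
  intro K _ _ _ htr D hD φ x g S hprm hf W hW1 hW2
  rcases hC K htr D hD φ x g S hf hprm ⟨W, hW1, hW2⟩ with h | h
  · exact Or.inl h
  · exact Or.inr ((Nat.le_mul_of_pos_left _ hm).trans h)

end Pool.Agent.H15.FOS
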