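import Pool.Agent.H3.SF.Defs
import Pool.Agent.H3.OD.Targets

/-!
# MP_70ba79_ag, THEOREM S (surfaces), chapter 12: first order equations; targets

A solution `f` of a first order equation `c (f, f') = 0` on the surface `Y` has bounded contact with
the curve `G = 0`. The plane curve `u (f)` satisfies a first order equation over the plane (the
constant term of an integral equation of `c`), the contact is compared with the contact of `u (f)`
with the image of the curve `G = 0` in the plane, and the ramification of the function field of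
`f` over the function field of `u (f)` is bounded by the degree of the projection.
-/

set_option autoImplicit false

namespace Pool.Agent.H15.FOS

open MvPolynomial SC Pool.Agent.H27.LV
open Pool.Agent.H84.SM (dp cr dt)
open Pool.Agent.H92.SF Pool.Agent.H3.SF

/-- every element of `K` satisfies an equation of degree at most `N` over the field `L` -/
def Dep {k K : Type} [Field k] [Field K] [Algebra k K] (L : IntermediateField k K) (N : ℕ) : Prop :=
  ∀ t : K, ∃ a : ℕ → K, (∀ i, a i ∈ L) ∧ (∃ i, i ≤ N ∧ a i ≠ 0) ∧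
    ∑ i ∈ Finset.range (N + 1), a i * t ^ i = 0

/-- the homogeneous equation of degree `N` with the coefficients `q i` -/
structure HEq {κ A : Type} [CommRing κ] [CommRing A] (f : κ →+* A) (u : Fin 3 → A) (P : A) (e N : ℕ)
    (q : ℕ → MvPolynomial (Fin 3) κ) : Prop where
  pos : 0 < N
  hom : ∀ i, i < N → (q i).IsHomogeneous ((N - i) * e)
  ne : q 0 ≠ 0
  eq : P ^ N + ∑ i ∈ Finset.range N, eval₂Hom f u (q i) * P ^ i = 0

/-- HRL: a homogeneous integral element satisfies a homogeneous equation whose constant term is not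
zero -/
def T_HRL : Prop := ∀ (κ A : Type) [CommRing κ] [CommRing A] [IsDomain A] [CharZero A]
  (f : κ →+* A) (u : Fin 3 → A) (E : A →+ A) (P : A) (e : ℕ), P ≠ 0 →
  (∀ (c : κ) (a : Fin 3 →₀ ℕ) (i : ℕ), E (eval₂Hom f u (monomial a c) * P ^ i) =
    ((a.degree + i * e : ℕ) : A) * (eval₂Hom f u (monomial a c) * P ^ i)) →
  (eval₂Hom f u).IsIntegralElem P → ∃ (N : ℕ) (q : ℕ → MvPolynomial (Fin 3) κ), HEq f u P e N q

/-- MPR: elements of `F` -/
def T_MPR : Prop := ∀ (k F : Type) [Field k] [CharZero k] [Field F] [Algebra k F] (u : Fin 3 → F)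
  (E : Derivation k F F) (a : F) (e : ℕ), (∀ i, E (u i) = u i) → a ≠ 0 → Itg k u a →
  Hm k E e a → ∃ (N : ℕ) (q : ℕ → MvPolynomial (Fin 3) k), HEq (algebraMap k F) u a e N q

/-- HRP: polynomials in one variable with coefficients in `F` -/
def T_HRP : Prop := ∀ (k F : Type) [Field k] [CharZero k] [Field F] [Algebra k F] (u : Fin 3 → F)
  (E : Derivation k F F) (P : Polynomial F) (e : ℕ), (∀ i, E (u i) = u i) → P ≠ 0 →
  (∀ j, Itg k u (P.coeff j)) → (∀ j, Hm k E e (P.coeff j)) →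
  ∃ (N : ℕ) (q : ℕ → MvPolynomial (Fin 3) (Polynomial k)),
    HEq (Polynomial.mapRingHom (algebraMap k F)) (fun i => Polynomial.C (u i)) P e N q

/-- PLQ: a first order equation for the plane curve -/
def T_PLQ : Prop := ∀ (k F : Type) [Field k] [IsAlgClosed k] [CharZero k] [Field F] [Algebra k F]
  (u : Fin 3 → F) (E : Derivation k F F) (c : MvPolynomial (Fin 2) F) (n e : ℕ),
  (∀ i, E (u i) = u i) → c ≠ 0 → c.IsHomogeneous n → (∀ a, Itg k u (c.coeff a)) →
  (∀ a, Hm k E e (c.coeff a)) → ∃ Q1 : MvPolynomial (Fin 3) k, Q1 ≠ 0 ∧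
  ∀ (K : Type) [Field K] [Algebra k K] (D : Derivation k K K) (φ : Bb k u →ₐ[k] K) (x : Fin 3 → K)
    (W : MvPolynomial (Fin 2) K), (∀ (i : Fin 3) (b : Bb k u), (b : F) = u i → φ b = x i) →
    x 0 ≠ 0 → (∀ a, Vl u φ (c.coeff a) (W.coeff a)) →
    eval ![cr x (fun i => D (x i)) 1, cr x (fun i => D (x i)) 2] W = 0 →
    D (x 1 / x 0) ≠ 0 → aeval ![x 1 / x 0, x 2 / x 0, D (x 2 / x 0) / D (x 1 / x 0)] Q1 = 0

/-- DPL: equations of degree at most `δ` over `k[u]` -/
def T_DPL : Prop := ∀ (k F : Type) [Field k] [CharZero k] [Field F] [Algebra k F] (u : Fin 3 → F)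
  (δ : ℕ), AlgebraicIndependent k u → Module.finrank (kF k u) F = δ → 1 ≤ δ → ∀ a : F, Itg k u a →
  ∃ p : Polynomial (MvPolynomial (Fin 3) k), p.Monic ∧ p.natDegree ≤ δ ∧
    Polynomial.eval₂ ((aeval u : MvPolynomial (Fin 3) k →ₐ[k] F) : MvPolynomial (Fin 3) k →+* F)
      a p = 0

/-- IMG: the field of a curve consists of quotients -/
def T_IMG : Prop := ∀ (k F K : Type) [Field k] [Field F] [Algebra k F] [Field K] [Algebra k K]
  (u : Fin 3 → F) (φ : Bb k u →ₐ[k] K), Prm φ → ∀ t : K, ∃ (b c : Bb k u)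
  (p : MvPolynomial (Fin 3) k), (c : F) = aeval u p ∧ φ c ≠ 0 ∧ t * φ c = φ b

/-- DPN: the degree of the field of a curve over the field of the plane curve -/
def T_DPN : Prop := ∀ (k F K : Type) [Field k] [CharZero k] [Field F] [Algebra k F] [Field K]
  [Algebra k K] (u : Fin 3 → F) (δ : ℕ), AlgebraicIndependent k u →
  Module.finrank (kF k u) F = δ → 1 ≤ δ → ∀ (φ : Bb k u →ₐ[k] K) (x : Fin 3 → K),
  (∀ (i : Fin 3) (b : Bb k u), (b : F) = u i → φ b = x i) → Prm φ →
  Dep (IntermediateField.adjoin k (Set.range x)) δ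

/-- RMF: bounded contact, fields of degree at most `N` over the field of the plane curve -/
def T_RMF : Prop := ∀ (k : Type) [Field k] [IsAlgClosed k] [CharZero k]
  (Q1 : MvPolynomial (Fin 3) k) (a b : MvPolynomial (Fin 2) k), Q1 ≠ 0 → ∃ q : ℕ,
  ∀ (K : Type) [Field K] [Algebra k K] [Algebra.EssFiniteType k K], Algebra.trdeg k K = 1 →
  ∀ (N : ℕ) (X Y : K) (D : Derivation k K K), Dep (IntermediateField.adjoin k {X, Y}) N →
    D X ≠ 0 → aeval ![X, Y, D Y / D X] Q1 = 0 → aeval ![X, Y] b ≠ 0 →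
    ∀ v : DV k K, v.ord (aeval ![X, Y] a / aeval ![X, Y] b) ≤ q * N

/-- LCB: the local bound in the plane -/
def T_LCB : Prop := ∀ (k : Type) [Field k] [IsAlgClosed k] [CharZero k] (d : ℕ)
  (G Q1 : MvPolynomial (Fin 3) k), Q1 ≠ 0 → ∃ C : ℕ,
  ∀ (K : Type) [Field K] [Algebra k K] [Algebra.EssFiniteType k K], Algebra.trdeg k K = 1 →
  ∀ (N : ℕ) (X Y : K) (D : Derivation k K K), Dep (IntermediateField.adjoin k {X, Y}) N →
    D ≠ 0 → (D X ≠ 0 → aeval ![X, Y, D Y / D X] Q1 = 0) → aeval ![1, X, Y] G ≠ 0 →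
    ∀ v : DV k K, v.ord (aeval ![1, X, Y] G) - d * min 0 (min (v.ord X) (v.ord Y)) ≤ C * N

/-- GNM: the order of an element is bounded by the order of the constant term of its equation -/
def T_GNM : Prop := ∀ (k K : Type) [Field k] [Field K] [Algebra k K] (v : DV k K) (x : Fin 3 → K)
  (g : K) (m N : ℕ) (q : ℕ → MvPolynomial (Fin 3) k), HEq (algebraMap k K) x g m N q →
  aeval x (q 0) ≠ 0 →
  v.ord g + m * poleOrder v x ≤ v.ord (aeval x (q 0)) + (N * m : ℕ) * poleOrder v x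

/-- PLO: normalised orders in affine coordinates -/
def T_PLO : Prop := ∀ (k K : Type) [Field k] [Field K] [Algebra k K] (v : DV k K) (x : Fin 3 → K)
  (d : ℕ) (Φ : MvPolynomial (Fin 3) k), (∃ j, x j = 1) → x 0 ≠ 0 → Φ.IsHomogeneous d →
  aeval x Φ ≠ 0 → aeval ![1, x 1 / x 0, x 2 / x 0] Φ ≠ 0 ∧
  v.ord (aeval x Φ) + d * poleOrder v x = v.ord (aeval ![1, x 1 / x 0, x 2 / x 0] Φ) -
    d * min 0 (min (v.ord (x 1 / x 0)) (v.ord (x 2 / x 0)))

/-- SUX: from local bounds to the degree -/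
def T_SUX : Prop := ∀ (k K : Type) [Field k] [IsAlgClosed k] [CharZero k] [Field K] [Algebra k K]
  [Algebra.EssFiniteType k K], Algebra.trdeg k K = 1 → ∀ (m C : ℕ) (g : K) (x : Fin 3 → K),
  g ≠ 0 → ∀ S : Finset (DV k K), (∀ v, v ∉ S → v.ord g = -(m * poleOrder v x)) →
  (∀ v ∈ S, v.ord g + m * poleOrder v x ≤ C) → m * deg k x ≤ C * S.card

/-- FOL: local form of the result -/
def T_FOL : Prop := ∀ (k F : Type) [Field k] [IsAlgClosed k] [CharZero k] [Field F] [Algebra k F]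
  (u : Fin 3 → F) (dd : Fin 3 → Derivation k F F) (δ j0 c0 m : ℕ) (J : MvPolynomial (Fin 3) k)
  (G : F) (c : Q2 F), Sfc u dd δ j0 c0 J → Crd u dd m G → FE u dd c → ∃ C : ℕ,
  ∀ (K : Type) [Field K] [Algebra k K] [Algebra.EssFiniteType k K], Algebra.trdeg k K = 1 →
  ∀ (D : Derivation k K K), D ≠ 0 → ∀ (φ : Bb k u →ₐ[k] K) (x : Fin 3 → K) (g : K)
    (S : Finset (DV k K)), Crf u J m G φ x g S → Prm φ →
    (∃ W, VQ u φ c W ∧ evc D x W = 0) →
    (∃ (e : ℕ) (Φ : MvPolynomial (Fin 3) k), e ≤ C ∧ Φ ≠ 0 ∧ Φ.IsHomogeneous e ∧ aeval x Φ = 0) ∨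
    ∀ v : DV k K, v.ord g + m * poleOrder v x ≤ C

/-- FO: the degree of the solutions of a first order equation -/
def T_FO : Prop := ∀ (k F : Type) [Field k] [IsAlgClosed k] [CharZero k] [Field F] [Algebra k F]
  (u : Fin 3 → F) (dd : Fin 3 → Derivation k F F) (δ j0 c0 m : ℕ) (J : MvPolynomial (Fin 3) k)
  (G : F) (c : Q2 F), Sfc u dd δ j0 c0 J → Crd u dd m G → FE u dd c → ∃ C : ℕ,
  ∀ (K : Type) [Field K] [Algebra k K] [Algebra.EssFiniteType k K], Algebra.trdeg k K = 1 →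
  ∀ (D : Derivation k K K), D ≠ 0 → ∀ (φ : Bb k u →ₐ[k] K) (x : Fin 3 → K) (g : K)
    (S : Finset (DV k K)), Crf u J m G φ x g S → Prm φ →
    (∃ W, VQ u φ c W ∧ evc D x W = 0) →
    (∃ (e : ℕ) (Φ : MvPolynomial (Fin 3) k), e ≤ C ∧ Φ ≠ 0 ∧ Φ.IsHomogeneous e ∧ aeval x Φ = 0) ∨
    m * deg k x ≤ C * S.card

end Pool.Agent.H15.FOS
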